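import Mathlib

set_option autoImplicit false
open Finset
open scoped RealInnerProductSpace

namespace Pool.Agent.H.MP_b0e7a9_co

variable {ι : Type} [Fintype ι] [DecidableEq ι]
variable {E : Type} [NormedAddCommGroup E] [InnerProductSpace ℝ E] [FiniteDimensional ℝ E]

noncomputable def D (v : ι → E) : (ι → ℝ) →ₗ[ℝ] E := Fintype.linearCombination ℝ v
noncomputable def Q (v : ι → E) : (ι → ℝ) →ₗ[ℝ] ℝ :=
  Fintype.linearCombination ℝ (fun i => ‖v i‖ ^ 2)

omit [DecidableEq ι] [FiniteDimensional ℝ E] in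
theorem D_apply (v : ι → E) (a : ι → ℝ) : D v a = ∑ i, a i • v i :=
  Fintype.linearCombination_apply ℝ v a

omit [DecidableEq ι] [FiniteDimensional ℝ E] [InnerProductSpace ℝ E] in
theorem Q_apply (v : ι → E) (a : ι → ℝ) : Q v a = ∑ i, a i * ‖v i‖ ^ 2 :=
  Fintype.linearCombination_apply ℝ _ a

omit [FiniteDimensional ℝ E] in
theorem D_single (v : ι → E) (j : ι) : D v (Pi.single j 1) = v j := by
  rw [D_apply, sum_eq_single j] <;> simp +contextual [Pi.single_apply]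

omit [DecidableEq ι] [FiniteDimensional ℝ E] in
theorem inner_D (v : ι → E) (a : ι → ℝ) (z x : E) :
    ∑ i, a i * ⟪z, v i - x⟫ = ⟪z, D v a⟫ - (∑ i, a i) * ⟪z, x⟫ := by
  rw [D_apply, inner_sum, sum_mul, ← sum_sub_distrib]
  apply sum_congr rfl
  intro i _
  rw [inner_sub_right, inner_smul_right]; ring

omit [DecidableEq ι] [FiniteDimensional ℝ E] in
theorem Mform (v : ι → E) (a : ι → ℝ) (h : ∑ i, a i = 1) :
    Q v a - ‖D v a‖ ^ 2 = ∑ i, a i * ‖v i - D v a‖ ^ 2 := by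
  have e : ∀ i, a i * ‖v i - D v a‖ ^ 2
      = a i * ‖v i‖ ^ 2 - 2 * (a i * ⟪D v a, v i - D v a⟫) - a i * ‖D v a‖ ^ 2 := by
    intro i
    rw [norm_sub_sq_real, inner_sub_right, real_inner_self_eq_norm_sq, real_inner_comm]; ring
  simp only [e, sum_sub_distrib, ← mul_sum, ← sum_mul, inner_D, h, Q_apply]
  ring

theorem dir (v : ι → E) (s : Finset ι) (a : ι → ℝ) (h0 : ∀ i ∉ s, a i = 0) (h1 : ∑ i, a i = 1)
    (i j : ι) (hj : j ∈ s) (hij : j ≠ i) :
    ∃ δ : ι → ℝ, (∀ l ∉ s, δ l = 0) ∧ ∑ l, δ l = 0 ∧ δ i = - a i ∧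
      ∀ l ∈ s, l ≠ i → ⟪D v δ, v l - D v a⟫ = ‖D v δ‖ ^ 2 := by
  let Z : Submodule ℝ (ι → ℝ) :=
    { carrier := {δ | (∀ l ∉ s, δ l = 0) ∧ δ i = 0 ∧ ∑ l, δ l = 0}
      add_mem' := by
        rintro b c ⟨b1, b2, b3⟩ ⟨c1, c2, c3⟩
        refine ⟨fun l hl => by simp [b1 l hl, c1 l hl], by simp [b2, c2], ?_⟩
        simp [sum_add_distrib, b3, c3]
      zero_mem' := ⟨fun _ _ => rfl, rfl, by simp⟩
      smul_mem' := by
        rintro c b ⟨b1, b2, b3⟩
        refine ⟨fun l hl => by simp [b1 l hl], by simp [b2], ?_⟩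
        simp [← mul_sum, b3] }
  obtain ⟨y, hy, z, hz, e⟩ := (Z.map (D v)).exists_add_mem_mem_orthogonal (v j - D v a)
  obtain ⟨b, ⟨b1, b2, b3⟩, rfl⟩ := hy
  have ez : D v (Pi.single j 1 - a - b) = z := by
    rw [map_sub, map_sub, D_single, e]; abel
  refine ⟨Pi.single j 1 - a - b, ?_, ?_, ?_, ?_⟩
  · intro l hl
    have : l ≠ j := fun q => hl (q ▸ hj)
    simp [b1 l hl, h0 l hl, this]
  · simp [sum_sub_distrib, h1, b3]
  · simp [b2, hij.symm]
  · intro l hl hli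
    rw [ez]
    have m : D v (Pi.single l 1 - Pi.single j 1 + b) ∈ Z.map (D v) := by
      refine ⟨_, ⟨?_, ?_, ?_⟩, rfl⟩
      · intro r hr
        have : r ≠ j := fun q => hr (q ▸ hj)
        have : r ≠ l := fun q => hr (q ▸ hl)
        simp [*]
      · simp [b2, hij.symm, hli.symm]
      · simp [sum_add_distrib, sum_sub_distrib, b3]
    have e2 : v l - D v a = D v (Pi.single l 1 - Pi.single j 1 + b) + z := by
      rw [map_add, map_sub, D_single, D_single, add_assoc, ← e]; abel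
    rw [e2, inner_add_right, real_inner_self_eq_norm_sq, real_inner_comm, hz _ m, zero_add]

theorem step (v : ι → E) (hv : ∀ δ : ι → ℝ, ∑ l, δ l = 0 → D v δ = 0 → δ = 0) (q : E)
    (c : ℝ) (hc : 0 ≤ c) (m : ℕ) (hm : 0 < m) (s : Finset ι) (hs : s.card = m + 1) (a : ι → ℝ)
    (hp : ∀ i ∈ s, 0 < a i) (h0 : ∀ i ∉ s, a i = 0) (h1 : ∑ i, a i = 1) :
    ∃ l ∈ s, ∃ μ : ι → ℝ, (∀ i, 0 ≤ μ i) ∧ (∀ i ∉ s.erase l, μ i = 0) ∧ ∑ i, μ i = 1 ∧
      ‖D v μ - q‖ ^ 2 + (1 - c) * (Q v μ - ‖D v μ‖ ^ 2) ≤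
      ‖D v a - q‖ ^ 2 + (1 - c) * (Q v a - ‖D v a‖ ^ 2) + c * ((Q v a - ‖D v a‖ ^ 2) / m ^ 2) := by
  set x := D v a with hx
  set M := Q v a - ‖x‖ ^ 2 with hM
  have ex : ∀ i, ∃ δ : ι → ℝ, (∀ l ∉ s, δ l = 0) ∧ ∑ l, δ l = 0 ∧ δ i = - a i ∧
      ∀ l ∈ s, l ≠ i → ⟪D v δ, v l - x⟫ = ‖D v δ‖ ^ 2 := by
    intro i
    obtain ⟨j, hj, hij⟩ := exists_mem_ne (s := s) (by omega) i
    exact dir v s a h0 h1 i j hj hij
  choose δ d1 d2 d3 d4 using ex
  set n : ι → ℝ := fun i => ‖D v (δ i)‖ with hn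
  have np : ∀ i ∈ s, 0 < n i := by
    intro i hi
    refine norm_pos_iff.mpr fun q => ?_
    have := congrFun (hv _ (d2 i) q) i
    rw [d3] at this
    exact (hp i hi).ne' (neg_eq_zero.mp this)
  have sa : ∑ i ∈ s, a i = 1 := by
    rw [← h1]; exact sum_subset (subset_univ _) fun i _ hi => h0 i hi
  have d5 : ∀ i ∈ s, a i * ⟪D v (δ i), v i - x⟫ = - ((1 - a i) * n i ^ 2) := by
    intro i hi
    have t := inner_D v a (D v (δ i)) x
    rw [h1, one_mul, sub_self, ← sum_subset (subset_univ s) (fun l _ hl => by rw [h0 l hl, zero_mul]),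
      ← add_sum_erase _ _ hi] at t
    have t2 : ∑ l ∈ s.erase i, a l * ⟪D v (δ i), v l - x⟫ = (1 - a i) * n i ^ 2 := by
      rw [← sa, ← add_sum_erase _ _ hi, add_sub_cancel_left, sum_mul]
      apply sum_congr rfl
      intro l hl
      rw [d4 i l (mem_of_mem_erase hl) (ne_of_mem_erase hl)]
    linarith
  have ex2 : ∀ i, ∃ τ : ℝ, ∃ l, i ∈ s → 0 < τ ∧ τ ≤ 1 ∧ l ∈ s ∧ a l + τ * δ i l = 0 ∧
      ∀ r, 0 ≤ a r + τ * δ i r := by
    intro i
    by_cases hi : i ∈ s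
    swap
    · exact ⟨0, i, fun h => absurd h hi⟩
    have mi : i ∈ s.filter (fun l => δ i l < 0) :=
      mem_filter.mpr ⟨hi, by rw [d3]; exact neg_neg_of_pos (hp i hi)⟩
    obtain ⟨l, hl, hmin⟩ := exists_min_image _ (fun l => a l / (- δ i l)) ⟨i, mi⟩
    obtain ⟨l1, l2⟩ := mem_filter.mp hl
    have tp : 0 < a l / (- δ i l) := div_pos (hp l l1) (neg_pos.mpr l2)
    refine ⟨a l / (- δ i l), l, fun _ => ⟨tp, ?_, l1, ?_, ?_⟩⟩
    · have := hmin i mi
      rwa [d3, neg_neg, div_self (hp i hi).ne'] at this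
    · have := l2.ne; field_simp; ring
    · intro r
      by_cases hr : r ∈ s
      · by_cases c2 : δ i r < 0
        · have := hmin r (mem_filter.mpr ⟨hr, c2⟩)
          rw [le_div_iff₀ (neg_pos.mpr c2)] at this
          linarith
        · have := mul_nonneg tp.le (not_lt.mp c2)
          have := hp r hr
          linarith
      · rw [h0 r hr, d1 i r hr]; simp
  choose τ l hτ using ex2
  set ζ : ι → ℝ := ∑ i ∈ s, (a i / n i ^ 2) • δ i with hζ
  have z1 : ∑ r, ζ r = 0 := by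
    simp only [hζ, Finset.sum_apply, Pi.smul_apply, smul_eq_mul]
    rw [sum_comm]
    simp only [← mul_sum, d2, mul_zero, sum_const_zero]
  have z2 : ∀ r ∉ s, ζ r = 0 := fun r hr => by
    simp only [hζ, Finset.sum_apply, Pi.smul_apply, smul_eq_mul, d1 _ r hr, mul_zero, sum_const_zero]
  have z3 : ∀ r ∈ s, ⟪D v ζ, v r - x⟫ = 0 := by
    intro r hr
    rw [hζ, map_sum, sum_inner, ← add_sum_erase _ _ hr]
    have t2 : ∑ i ∈ s.erase r, ⟪D v ((a i / n i ^ 2) • δ i), v r - x⟫ = 1 - a r := by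
      rw [← sa, ← add_sum_erase _ _ hr, add_sub_cancel_left]
      apply sum_congr rfl
      intro i hi
      rw [map_smul, real_inner_smul_left, d4 i r hr (ne_of_mem_erase hi).symm]
      have := (np i (mem_of_mem_erase hi)).ne'
      show a i / n i ^ 2 * n i ^ 2 = a i
      field_simp
    rw [t2, map_smul, real_inner_smul_left, div_mul_eq_mul_div, d5 r hr]
    have := (np r hr).ne'
    field_simp
    ring
  have z4 : ζ = 0 := by
    apply hv _ z1
    have t := inner_D v ζ (D v ζ) x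
    rw [z1, zero_mul, sub_zero, sum_eq_zero] at t
    · exact inner_self_eq_zero.mp t.symm
    · intro r _
      by_cases hr : r ∈ s
      · rw [z3 r hr, mul_zero]
      · rw [z2 r hr, zero_mul]
  set L : ι → ℝ := fun i => 2 * ⟪x - q, D v (δ i)⟫ + (1 - c) * (Q v (δ i) - 2 * ⟪x, D v (δ i)⟫)
    with hL
  have L0 : ∑ i ∈ s, a i / n i ^ 2 * L i = 0 := by
    have e1 : ∑ i ∈ s, a i / n i ^ 2 * L i
        = 2 * ⟪x - q, D v ζ⟫ + (1 - c) * (Q v ζ - 2 * ⟪x, D v ζ⟫) := by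
      simp only [hζ, map_sum, map_smul, inner_sum, real_inner_smul_right, smul_eq_mul, mul_sum,
        ← sum_sub_distrib, ← sum_add_distrib, hL]
      apply sum_congr rfl
      intro i _
      ring
    rw [e1, z4]; simp
  have Fe : ∀ i, ‖D v (a + τ i • δ i) - q‖ ^ 2
      + (1 - c) * (Q v (a + τ i • δ i) - ‖D v (a + τ i • δ i)‖ ^ 2)
      = ‖x - q‖ ^ 2 + (1 - c) * M + τ i * L i + c * (τ i ^ 2 * n i ^ 2) := by
    intro i
    rw [map_add, map_add, map_smul, map_smul, ← hx, add_sub_right_comm, norm_add_sq_real,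
      norm_add_sq_real, real_inner_smul_right, real_inner_smul_right, norm_smul, mul_pow,
      Real.norm_eq_abs, sq_abs, smul_eq_mul, hM, hL]
    ring
  have cs : (m : ℝ) ^ 2 ≤ M * ∑ i ∈ s, a i / n i ^ 2 := by
    have e1 : (m : ℝ) ≤ ∑ i ∈ s, (√(a i) * ‖v i - x‖) * (√(a i) / n i) := by
      have : (m : ℝ) = ∑ i ∈ s, (1 - a i) := by
        rw [sum_sub_distrib, sa, sum_const, hs]; simp
      rw [this]
      apply sum_le_sum
      intro i hi
      have t := d5 i hi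
      have t2 : - ⟪D v (δ i), v i - x⟫ ≤ n i * ‖v i - x‖ :=
        (neg_le_abs _).trans (abs_real_inner_le_norm _ _)
      have t3 := mul_le_mul_of_nonneg_left t2 (hp i hi).le
      have p := np i hi
      have e : √(a i) * ‖v i - x‖ * (√(a i) / n i) = a i * ‖v i - x‖ / n i := by
        nth_rewrite 3 [← Real.mul_self_sqrt (hp i hi).le]
        ring
      rw [e, le_div_iff₀ p]
      have : (1 - a i) * n i * n i ≤ a i * ‖v i - x‖ * n i := by nlinarith
      exact le_of_mul_le_mul_right this p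
    have e2 := sum_mul_sq_le_sq_mul_sq s (fun i => √(a i) * ‖v i - x‖) (fun i => √(a i) / n i)
    have e3 : ∑ i ∈ s, (√(a i) * ‖v i - x‖) ^ 2 = M := by
      rw [hM, hx, Mform v a h1,
        ← sum_subset (subset_univ s) (fun l _ hl => by rw [h0 l hl, zero_mul])]
      apply sum_congr rfl
      intro i hi
      rw [mul_pow, Real.sq_sqrt (hp i hi).le]
    have e4 : ∑ i ∈ s, (√(a i) / n i) ^ 2 = ∑ i ∈ s, a i / n i ^ 2 := by
      apply sum_congr rfl
      intro i hi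
      rw [div_pow, Real.sq_sqrt (hp i hi).le]
    rw [e3, e4] at e2
    exact (pow_le_pow_left₀ (Nat.cast_nonneg _) e1 2).trans e2
  have M0 : 0 ≤ M := by
    rw [hM, hx, Mform v a h1]
    apply sum_nonneg
    intro i _
    by_cases hi : i ∈ s
    · exact mul_nonneg (hp i hi).le (sq_nonneg _)
    · rw [h0 i hi, zero_mul]
  have mp : (0:ℝ) < (m:ℝ) ^ 2 := by positivity
  have fin : ∃ i ∈ s, a i / n i ^ 2 / τ i * (τ i * L i + c * (τ i ^ 2 * n i ^ 2))
      ≤ a i / n i ^ 2 / τ i * (c * (M / m ^ 2)) := by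
    apply exists_le_of_sum_le (card_pos.mp (by omega))
    calc _ ≤ ∑ i ∈ s, (a i / n i ^ 2 * L i + c * a i) := by
          apply sum_le_sum
          intro i hi
          obtain ⟨t1, t2, -⟩ := hτ i hi
          have p := (np i hi).ne'
          have : a i / n i ^ 2 / τ i * (τ i * L i + c * (τ i ^ 2 * n i ^ 2))
              = a i / n i ^ 2 * L i + c * a i * τ i := by field_simp
          rw [this]
          have := mul_le_mul_of_nonneg_left t2 (mul_nonneg hc (hp i hi).le)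
          linarith
      _ = c := by rw [sum_add_distrib, L0, ← mul_sum, sa]; ring
      _ ≤ (∑ i ∈ s, a i / n i ^ 2) * (c * (M / m ^ 2)) := by
          have : (∑ i ∈ s, a i / n i ^ 2) * (c * (M / m ^ 2))
              = c * ((M * ∑ i ∈ s, a i / n i ^ 2) / m ^ 2) := by ring
          rw [this]
          exact le_mul_of_one_le_right hc ((one_le_div mp).mpr cs)
      _ ≤ _ := by
          rw [sum_mul]
          apply sum_le_sum
          intro i hi
          obtain ⟨t1, t2, -⟩ := hτ i hi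
          apply mul_le_mul_of_nonneg_right _ (by positivity)
          exact le_div_self (div_nonneg (hp i hi).le (sq_nonneg _)) t1 t2
  obtain ⟨i, hi, h⟩ := fin
  obtain ⟨t1, t2, t3, t4, t5⟩ := hτ i hi
  have h' := le_of_mul_le_mul_left h (div_pos (div_pos (hp i hi) (pow_pos (np i hi) 2)) t1)
  refine ⟨l i, t3, a + τ i • δ i, t5, ?_, ?_, ?_⟩
  · intro r hr
    by_cases e : r = l i
    · rw [e]; exact t4
    · have : r ∉ s := fun q => hr (mem_erase.mpr ⟨e, q⟩)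
      simp [h0 r this, d1 i r this]
  · simp [sum_add_distrib, ← mul_sum, h1, d2]
  · rw [Fe]; linarith

theorem main (v : ι → E) (hv : ∀ δ : ι → ℝ, ∑ l, δ l = 0 → D v δ = 0 → δ = 0) (q : E) (k : ℕ)
    (m : ℕ) (hm : k ≤ m) : ∀ s : Finset ι, s.card = m + 1 → ∀ a : ι → ℝ, (∀ i, 0 ≤ a i) →
    (∀ i ∉ s, a i = 0) → ∑ i, a i = 1 →
    ∃ t : Finset ι, t.card = k + 1 ∧ ∃ μ : ι → ℝ, (∀ i, 0 ≤ μ i) ∧ (∀ i ∉ t, μ i = 0) ∧
      ∑ i, μ i = 1 ∧ ‖D v μ - q‖ ^ 2 ≤ ‖D v a - q‖ ^ 2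
        + (1 - (k : ℝ) * (m + 1) / (m * (k + 1))) * (Q v a - ‖D v a‖ ^ 2) := by
  have M0 : ∀ a : ι → ℝ, (∀ i, 0 ≤ a i) → ∑ i, a i = 1 → 0 ≤ Q v a - ‖D v a‖ ^ 2 := by
    intro a h h1
    rw [Mform v a h1]
    exact sum_nonneg fun i _ => mul_nonneg (h i) (sq_nonneg _)
  induction m, hm using Nat.le_induction with
  | base =>
    intro s hs a h h0 h1
    refine ⟨s, hs, a, h, h0, h1, le_add_of_nonneg_right (mul_nonneg ?_ (M0 a h h1))⟩
    exact sub_nonneg.mpr (div_self_le_one _)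
  | succ m hm ih =>
    intro s hs a h h0 h1
    set c : ℝ := (k : ℝ) * (m + 1) / (m * (k + 1)) with hc
    have c0 : 0 ≤ c := by positivity
    have ce : (k : ℝ) * (((m + 1 : ℕ) : ℝ) + 1) / (((m + 1 : ℕ) : ℝ) * (k + 1))
        = c - c / ((m + 1 : ℕ) : ℝ) ^ 2 := by
      rcases Nat.eq_zero_or_pos k with rfl | kp
      · simp [hc]
      · have : (0:ℝ) < m := by exact_mod_cast (by omega : 0 < m)
        rw [hc]; push_cast; field_simp; ring
    rw [ce]
    have Ma := M0 a h h1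
    by_cases hp : ∀ i ∈ s, 0 < a i
    · obtain ⟨l, hl, μ, m1, m2, m3, m4⟩ := step v hv q c c0 (m + 1) (by omega) s hs a hp h0 h1
      obtain ⟨t, t1, ν, n1, n2, n3, n4⟩ := ih (s.erase l) (by rw [card_erase_of_mem hl, hs]; rfl)
        μ m1 m2 m3
      refine ⟨t, t1, ν, n1, n2, n3, n4.trans (m4.trans (le_of_eq ?_))⟩
      ring
    · push Not at hp
      obtain ⟨l, hl, e⟩ := hp
      obtain ⟨t, t1, ν, n1, n2, n3, n4⟩ := ih (s.erase l) (by rw [card_erase_of_mem hl, hs]; rfl)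
        a h (fun i hi => by
          by_cases r : i = l
          · rw [r]; exact le_antisymm e (h l)
          · exact h0 i fun q => hi (mem_erase.mpr ⟨r, q⟩)) h1
      refine ⟨t, t1, ν, n1, n2, n3, n4.trans ?_⟩
      have : 0 ≤ c / ((m + 1 : ℕ) : ℝ) ^ 2 * (Q v a - ‖D v a‖ ^ 2) := by positivity
      linarith

end Pool.Agent.H.MP_b0e7a9_co
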